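import Pool.Agent.Q137.UO.AV

/-!
# The Tate conjecture for abelian varieties over number fields, and cubic hypersurfaces over `ℚ`

For a finite set `H` of triples `(i, j, l)` with `1 ≤ i ≤ a` let `X_H` be the smooth affine cubic
hypersurface `∑_{(i, j, l) ∈ H} x_i y_j z_l = 1` over `ℚ`.

**Theorem.** (1) For every `H` and every `n` there is an abelian variety `A_{H,n}` over `ℚ` with
`H^1(A_{H,n}) ≅ Gr^W_{2a-1} H^n_c(X_H)(a - 1)`.

(2) Every abelian variety over `ℚ` is, up to isogeny, a direct factor of a finite product of abelian
varieties `A_{H,n}`. (Hence every abelian variety over a number field `K` is, up to isogeny, a direct factor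
of a finite product of abelian varieties `(A_{H,n})_K`, by restriction of scalars.)

(3) For every prime `ℓ` and every `i` the Tate conjecture in codimension `i` is true for all abelian
varieties over all number fields if and only if it is true for all finite products of the abelian varieties
`A_{H,n}` over `ℚ`.

Here `M` is the category of motives over `ℚ` for absolute Hodge cycles (or for motivated cycles), with
Tate twists `P ↦ P(t)`, and `D.H N n X = Gr^W_{1+2N} H^n_c(X)` for a separated scheme `X` of finite type
over `ℚ`; for smooth projective `X` it is `h^n(X)` if `n = 1 + 2N`, and zero otherwise. For an abelian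
variety `A` over `ℚ` let `h1 A` be its motive `h^1(A)`; `h1` is a fully faithful contravariant functor on
the category of abelian varieties over `ℚ` up to isogeny. So `h1 A` is a direct factor of `h1 B` if and
only if `A` is, up to isogeny, a direct factor of `B`, and `OfGraphs1 D h1 A` says that `A` is isogenous to
a finite product of abelian varieties `A_{H,n}`.

`Describes` lists the known facts that are used: the standard properties of the motives and of the
cohomology with compact supports (`IsWMotives`), the relation between abelian varieties and motives of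
weight one (`IsAV`), and two facts on the Tate conjecture. If it is true in codimension `i` for `B` then it is
true for every direct factor of `B` up to isogeny (restrict cycles to the factor); and for an abelian
variety `A` over a number field `K` it follows from the Tate conjecture for the abelian variety over `ℚ`
that is obtained from `A` by restriction of scalars, as Tate classes and algebraic classes are not changed
by finite extensions of the base field.
-/

set_option autoImplicit false

open CategoryTheory CategoryTheory.Limits AlgebraicGeometry Pool.Agent.Y116.UV Pool.Agent.Z125.UN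
  Pool.Agent.Q193.LT Pool.Agent.Q49.WU Pool.Agent.Q137.UO

universe v u w w'

namespace Pool.Agent.Results.MP_90d181_ag.HypergraphAbelianVarieties

/-- Abelian varieties over number fields, and their classes. -/
structure Classes where
  /-- the abelian varieties over `K` -/
  AV : ∀ (K : Type) [Field K] [NumberField K], Type w
  /-- the cohomology `V^i_ℓ(A)` -/
  V : ∀ (K : Type) [Field K] [NumberField K] (_ : AV K) (ℓ : ℕ) [Fact ℓ.Prime] (_ : ℕ),
    ModuleCat.{w'} ℚ_[ℓ]
  /-- the Tate classes -/
  tate : ∀ (K : Type) [Field K] [NumberField K] (A : AV K) (ℓ : ℕ) [Fact ℓ.Prime] (i : ℕ),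
    Submodule ℚ_[ℓ] (V K A ℓ i)
  /-- the span of the algebraic classes -/
  alg : ∀ (K : Type) [Field K] [NumberField K] (A : AV K) (ℓ : ℕ) [Fact ℓ.Prime] (i : ℕ),
    Submodule ℚ_[ℓ] (V K A ℓ i)

/-- The Tate conjecture in codimension `i` for `A`. -/
def TateFor (C : Classes.{w, w'}) (ℓ : ℕ) [Fact ℓ.Prime] (i : ℕ) (K : Type) [Field K] [NumberField K]
    (A : C.AV K) : Prop :=
  C.tate K A ℓ i ≤ C.alg K A ℓ i

/-- The known facts that are used. -/
structure Describes {M : Type u} [Category.{v} M] [Abelian M] (C : Classes.{w, w'})
    (D : WeightData ℚ M) (h1 : C.AV ℚ → M) : Prop where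
  motives : IsWMotives D
  varieties : IsAV D h1
  factor : ∀ (ℓ : ℕ) [Fact ℓ.Prime] (i : ℕ) (A B : C.AV ℚ), IsFactor (h1 A) (h1 B) →
    TateFor C ℓ i ℚ B → TateFor C ℓ i ℚ A
  restriction : ∀ (K : Type) [Field K] [NumberField K] (A : C.AV K), ∃ B : C.AV ℚ,
    ∀ (ℓ : ℕ) [Fact ℓ.Prime] (i : ℕ), TateFor C ℓ i ℚ B → TateFor C ℓ i K A

/-- **The Tate conjecture for abelian varieties over number fields.** See the explanations above. -/
theorem result {M : Type u} [Category.{v} M] [Abelian M] {C : Classes.{w, w'}} {D : WeightData ℚ M}
    {h1 : C.AV ℚ → M} (h : Describes C D h1) :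
    (∀ (a b c : ℕ) (H : Finset (Fin a × Fin b × Fin c)) (n : ℤ),
      ∃ A, Nonempty (h1 A ≅ graphObj D H n)) ∧
    (∀ A : C.AV ℚ, ∃ B, OfGraphs1 D h1 B ∧ IsFactor (h1 A) (h1 B)) ∧
    ∀ (ℓ : ℕ) [Fact ℓ.Prime] (i : ℕ),
      (∀ (K : Type) [Field K] [NumberField K] (A : C.AV K), TateFor C ℓ i K A) ↔
        ∀ B : C.AV ℚ, OfGraphs1 D h1 B → TateFor C ℓ i ℚ B := by
  refine ⟨fun a b c H n => graph_av h.motives h.varieties frac_rat H n,
    fun A => factor_graphs h.motives h.varieties frac_rat A, fun ℓ _ i => ⟨?_, ?_⟩⟩
  · exact fun g B _ => g ℚ B
  · intro g K _ _ A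
    obtain ⟨A', hA'⟩ := h.restriction K A
    obtain ⟨B, hB, hAB⟩ := factor_graphs h.motives h.varieties frac_rat A'
    exact hA' ℓ i (h.factor ℓ i A' B hAB (g B hB))

end Pool.Agent.Results.MP_90d181_ag.HypergraphAbelianVarieties
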