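import Pool.Agent.Q71.AB.Brg

/-!
# The Tate conjecture for the products of an abelian variety with three Frobenius slopes and other
# abelian varieties

Let `k` be a number field with the absolute Galois group `Γ`, let `K` be an algebraic closure of
`ℚ_ℓ` and `χ : Γ → Kˣ` the cyclotomic character. The cohomology of degree `2 a` of an abelian
variety is the space of the alternating forms in `2 a` variables on its rational Tate module (with
coefficients in `K`), and the Tate classes are the forms on which the elements of an open subgroup act
by `χ ^ a`.

Let `A` be an abelian variety whose Tate module is, under an open subgroup, a sum of copies of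
representations `T_j` (`IsSumOf`). Each `T_j` has a nondegenerate alternating form with the
multiplier `χ` and is irreducible under all subgroups of finite index (so `A` is of type I or II),
the `T_j` are not isomorphic to each other under any subgroup of finite index, and for every `j`
there is some Frobenius element with the slopes `h + c` and `h - c`, once each, and `h` on `T_j`
(for instance, `0`, `1/2`, `1`: the `p`-rank is one and the rest is supersingular).

Let `B` be an abelian variety whose Tate module is spanned by the images of representations `U` such
that, for every `j`, `U` has an alternating form and `dim U < dim T_j` (for instance, an abelian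
variety of dimension less than `dim T_j / 2`, of any type), or `U` has a symmetric form and
`dim U ≤ dim T_j`, or `2 (dim U)^2 < dim T_j (dim T_j + 1)`, or the Frobenius element has
few pairs of slopes on `U` with the same difference as on `T_j`.

**Theorem.** In the codimensions at most `n`, the Tate conjecture is true for `A × B` if and only if
it is true for `B`. If `dim B ≤ 3` then it is true for `A × B` in all codimensions.
-/

namespace Pool.Agent.Results.MP_90d181_ag.ThreeSlopesTimesSmall

open Pool.Agent.Y127.G Pool.Agent.Q71.AB.P

/-- **Tate classes on `A × B`, where `A` has three Frobenius slopes and `B` is small.** -/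
theorem result {K : Type} [Field K] [CharZero K] [IsAlgClosed K] {Γ : Type} [Group Γ]
    {χ : Γ →* Kˣ} {J : Type} {T : J → FRep K Γ} {A B : FRep K Γ}
    {C : ∀ a, Submodule K (Cl K (A.V × B.V) a)} {C' : ∀ a, Submodule K (Cl K B.V a)}
    (hT : ∀ j, IsSymplectic χ (act (T j))) (hF : ∀ j, ThreeSlopes (T j))
    (hiso : ∀ i j, i ≠ j → ¬PotIso K (act (T i)) (act (T j))) (hA : IsSumOf T A)
    (hB : HasPieces (fun U => ∀ j, SmallDim (T j) U ∨ FewSlopes (T j) U) B)
    (hC : Cycles χ (act A) (act B) C C') :
    (∀ n, TateUpTo χ (prodAct (act A) (act B)) C n ↔ TateUpTo χ (act B) C' n) ∧
    ∀ d, dim B = 2 * d → d ≤ 3 → LowCycles χ (act B) C' →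
      ∀ n, TateUpTo χ (prodAct (act A) (act B)) C n :=
  Pool.Agent.Q71.AB.final hT (fun j => Pool.Agent.Q71.AB.brg_full_slopes (hF j)) hiso hA
    (Pool.Agent.Q71.AB.brg_pieces hB fun _ h j =>
      (h j).elim Pool.Agent.Q71.AB.brg_dim Pool.Agent.Q71.AB.brg_slopes) hC

end Pool.Agent.Results.MP_90d181_ag.ThreeSlopesTimesSmall
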